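import Pool.Agent.Helper21.Pin.Main

set_option autoImplicit false

namespace Pool.Agent.Results.MP_917099_lc.NearOptimal

/-- For every `ε > 0` there is a constant `C` such that every integer-valued pinwheel instance with
smallest period `a 0` and density at most `1 - C * (a 0) ^ (-1 + ε)` is schedulable. -/
theorem result : ∀ ε : ℝ, 0 < ε → ∃ C : ℝ, ∀ (k : ℕ) (a : Fin (k + 1) → ℕ),
    (∀ i, 0 < a i) →
    (∀ i, a 0 ≤ a i) →
    (∑ i, (1 : ℝ) / (a i : ℝ)) ≤ 1 - C * (a 0 : ℝ) ^ (-1 + ε) →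
    ∃ S : ℤ → Fin (k + 1), ∀ i : Fin (k + 1), ∀ m : ℤ,
      ∃ t : ℤ, m ≤ t ∧ t < m + (a i : ℤ) ∧ S t = i := by
  intro ε hε
  obtain ⟨C, hC⟩ := Pool.Agent.Helper21.Pin.pinwheel_eps ε hε
  refine ⟨C, fun k a h0 h1 hD => ?_⟩
  obtain ⟨S, hS⟩ := hC (Fin (k + 1)) a (a 0) (h0 0) h1 hD
  refine ⟨fun t => (S t).getD 0, fun i m => ?_⟩
  obtain ⟨t, ht1, ht2, ht3⟩ := hS i m
  refine ⟨t, ht1, ht2, ?_⟩
  simp [ht3]

end Pool.Agent.Results.MP_917099_lc.NearOptimal
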